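import Mathlib

namespace Pool.Agent.H.MP_8d2e9f_nt

open Polynomial Function Filter

section period
variable {R : Type} [CommRing R] [IsDomain R] {q : ℕ} [Fact q.Prime] (φ : R →+* ZMod q) (x : R)

def Lin (S : R → R) (l : ZMod q) : Prop :=
  φ (S x) = φ x ∧ ∀ y δ, φ y = φ x → φ δ = 0 → ∃ μ, S (y + δ) = S y + μ * δ ∧ φ μ = l

variable {φ x}

omit [IsDomain R] in
theorem Lin.pres {S : R → R} {l : ZMod q} (h : Lin φ x S l) {y : R} (hy : φ y = φ x) :
    φ (S y) = φ x := by
  obtain ⟨μ, h1, _⟩ := h.2 x (y - x) rfl (by simp [hy])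
  have : x + (y - x) = y := by ring
  rw [this] at h1
  rw [h1, map_add, map_mul, map_sub, hy, sub_self, mul_zero, add_zero, h.1]

omit [IsDomain R] in
theorem Lin.iter {S : R → R} {l : ZMod q} (h : Lin φ x S l) (k : ℕ) :
    Lin φ x S^[k] (l ^ k) := by
  induction k with
  | zero => exact ⟨rfl, fun y δ _ _ => ⟨1, by simp, by simp⟩⟩
  | succ k ih =>
    refine ⟨by rw [iterate_succ_apply']; exact h.pres ih.1, fun y δ hy hδ => ?_⟩
    obtain ⟨μ, h1, h2⟩ := ih.2 y δ hy hδ
    obtain ⟨ν, h3, h4⟩ := h.2 (S^[k] y) (μ * δ) (ih.pres hy) (by simp [hδ])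
    refine ⟨ν * μ, ?_, by rw [map_mul, h2, h4, pow_succ']⟩
    rw [iterate_succ_apply', iterate_succ_apply', h1, h3]; ring

omit [IsDomain R] in
theorem Lin.geom {S : R → R} {l : ZMod q} (h : Lin φ x S l) (k : ℕ) :
    ∃ t, S^[k] x = x + t * (S x - x) ∧ φ t = ∑ i ∈ Finset.range k, l ^ i := by
  induction k with
  | zero => exact ⟨0, by simp, by simp⟩
  | succ k ih =>
    obtain ⟨t, h1, h2⟩ := ih
    obtain ⟨μ, h3, h4⟩ := h.2 x (t * (S x - x)) rfl (by simp [h.1])
    refine ⟨μ * t + 1, ?_, by rw [map_add, map_mul, h4, h2, map_one, geom_sum_succ]⟩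
    rw [iterate_succ_apply', h1, h3]; ring

theorem Lin.sum_zero {S : R → R} {l : ZMod q} (h : Lin φ x S l) {n : ℕ} (hn : IsPeriodicPt S n x)
    (hx : S x ≠ x) : ∑ i ∈ Finset.range n, l ^ i = 0 := by
  obtain ⟨t, h1, h2⟩ := h.geom n
  rw [show S^[n] x = x from hn] at h1
  have : t * (S x - x) = 0 := by linear_combination -h1
  rcases mul_eq_zero.1 this with h0 | h0
  · rw [← h2, h0, map_zero]
  · exact absurd (sub_eq_zero.1 h0) hx

theorem Lin.one (n : ℕ) : ∀ {S : R → R}, Lin φ x S 1 → 0 < n → IsPeriodicPt S n x →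
    ∃ e, IsPeriodicPt S (q ^ e) x := by
  induction n using Nat.strong_induction_on with
  | _ n ih =>
    intro S h hn hp
    by_cases hx : S x = x
    · exact ⟨0, by simpa [IsPeriodicPt, IsFixedPt] using hx⟩
    have h1 := h.sum_zero hp hx
    simp only [one_pow, Finset.sum_const, Finset.card_range, nsmul_eq_mul, mul_one] at h1
    obtain ⟨m, rfl⟩ := (ZMod.natCast_eq_zero_iff n q).1 h1
    have hq : 1 < q := (Fact.out : q.Prime).one_lt
    have hm : 0 < m := Nat.pos_of_mul_pos_left hn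
    have h2 := h.iter q
    rw [one_pow] at h2
    obtain ⟨e, he⟩ := ih m (by nlinarith) h2 hm (by
      show (S^[q])^[m] x = x
      rw [← iterate_mul]; exact hp)
    refine ⟨e + 1, ?_⟩
    show S^[q ^ (e + 1)] x = x
    rw [pow_succ', iterate_mul]; exact he

theorem Lin.gen {S : R → R} {l : ZMod q} (h : Lin φ x S l) {n : ℕ} (hn : 0 < n)
    (hp : IsPeriodicPt S n x) : ∃ e, IsPeriodicPt S ((q - 1) * q ^ e) x := by
  by_cases hx : S x = x
  · exact ⟨0, IsFixedPt.isPeriodicPt hx _⟩
  have h1 := h.sum_zero hp hx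
  have hl : l ≠ 0 := by
    rintro rfl
    obtain ⟨m, rfl⟩ := Nat.exists_eq_succ_of_ne_zero hn.ne'
    rw [geom_sum_succ] at h1
    simp at h1
  have h2 := h.iter (q - 1)
  rw [ZMod.pow_card_sub_one_eq_one hl] at h2
  obtain ⟨e, he⟩ := Lin.one n h2 hn (hp.iterate _)
  refine ⟨e, ?_⟩
  show S^[(q - 1) * q ^ e] x = x
  rw [iterate_mul]; exact he

omit [IsDomain R] in
theorem lin_poly (g : R[X]) (hx : φ (g.eval x) = φ x) :
    Lin φ x (fun y => g.eval y) (φ (g.derivative.eval x)) := by
  refine ⟨hx, fun y δ hy hδ => ?_⟩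
  obtain ⟨k, hk⟩ := g.binomExpansion y δ
  refine ⟨g.derivative.eval y + k * δ, by simp only [hk]; ring, ?_⟩
  rw [map_add, map_mul, hδ, mul_zero, add_zero, ← Polynomial.eval₂_at_apply,
    ← Polynomial.eval₂_at_apply, hy]

theorem period_bound (φ : R →+* ZMod q) (g : R[X]) {n : ℕ} (hn : 0 < n)
    (hp : IsPeriodicPt (fun y => g.eval y) n x) :
    ∃ e, IsPeriodicPt (fun y => g.eval y) ((q.factorial * (q - 1)) * q ^ e) x := by
  have hsc : Semiconj φ (fun y => g.eval y) (fun z => (g.map φ).eval z) := by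
    intro y
    simp only [Polynomial.eval_map, Polynomial.eval₂_at_apply]
  have h1 : IsPeriodicPt (fun z => (g.map φ).eval z) n (φ x) := hp.map hsc
  have h2 := isPeriodicPt_factorial_card_of_mem_periodicPts (f := fun z => (g.map φ).eval z)
    (x := φ x) ⟨n, hn, h1⟩
  rw [ZMod.card] at h2
  have e0 : (fun y => (g.comp^[q.factorial] X).eval y) = (fun y => g.eval y)^[q.factorial] := by
    funext y; rw [Polynomial.iterate_comp_eval, eval_X]
  have h3 : φ ((g.comp^[q.factorial] X).eval x) = φ x := by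
    rw [congrFun e0 x, (hsc.iterate_right _) x]; exact h2
  have h4 := lin_poly _ h3
  rw [e0] at h4
  obtain ⟨e, he⟩ := h4.gen hn (hp.iterate _)
  refine ⟨e, ?_⟩
  show (fun y => g.eval y)^[(q.factorial * (q - 1)) * q ^ e] x = x
  rw [mul_assoc, iterate_mul]; exact he

end period

theorem esc_na {K : Type} [NormedField K] [IsUltrametricDist K] (g : K[X])
    (hd : 2 ≤ g.natDegree) (hc : ∀ i, ‖g.coeff i‖ ≤ 1) (hl : ‖g.coeff g.natDegree‖ = 1) (y : K)
    (hy : 1 < ‖y‖) : ‖y‖ < ‖g.eval y‖ := by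
  have h1 : g.eval y = ∑ i ∈ Finset.range g.natDegree, g.coeff i * y ^ i +
      g.coeff g.natDegree * y ^ g.natDegree := by
    rw [Polynomial.eval_eq_sum_range, Finset.sum_range_succ]
  have h2 : ‖∑ i ∈ Finset.range g.natDegree, g.coeff i * y ^ i‖ ≤ ‖y‖ ^ (g.natDegree - 1) := by
    apply IsUltrametricDist.norm_sum_le_of_forall_le_of_nonneg (by positivity)
    intro i hi
    rw [norm_mul, norm_pow]
    have hi' := Finset.mem_range.1 hi
    calc ‖g.coeff i‖ * ‖y‖ ^ i ≤ 1 * ‖y‖ ^ i := by gcongr; exact hc i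
      _ ≤ ‖y‖ ^ (g.natDegree - 1) := by
        rw [one_mul]; exact pow_le_pow_right₀ hy.le (by omega)
  have h3 : ‖g.coeff g.natDegree * y ^ g.natDegree‖ = ‖y‖ ^ g.natDegree := by
    rw [norm_mul, hl, one_mul, norm_pow]
  have h4 : ‖y‖ ^ (g.natDegree - 1) < ‖y‖ ^ g.natDegree := pow_lt_pow_right₀ hy (by omega)
  have h5 : ‖y‖ ^ 1 < ‖y‖ ^ g.natDegree := pow_lt_pow_right₀ hy (by omega)
  rw [pow_one] at h5
  have h6 : g.coeff g.natDegree * y ^ g.natDegree =
      g.eval y + (-∑ i ∈ Finset.range g.natDegree, g.coeff i * y ^ i) := by rw [h1]; ring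
  have h7 := IsUltrametricDist.norm_add_le_max (g.eval y)
    (-∑ i ∈ Finset.range g.natDegree, g.coeff i * y ^ i)
  rw [← h6, h3, norm_neg] at h7
  rcases le_max_iff.1 h7 with h | h
  · linarith
  · linarith

theorem esc_ar (g : ℂ[X]) (hd : 2 ≤ g.natDegree) :
    ∃ B : ℝ, ∀ y, B < ‖y‖ → ‖y‖ < ‖g.eval y‖ := by
  have h1 : 0 < g.divX.degree := by
    rw [← Polynomial.natDegree_pos_iff_degree_pos, Polynomial.natDegree_divX_eq_natDegree_tsub_one]
    omega
  have h2 := Polynomial.tendsto_norm_atTop g.divX h1 (l := comap norm atTop) (z := id)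
    tendsto_comap
  have h3 := h2.eventually_ge_atTop 2
  rw [eventually_comap, eventually_atTop] at h3
  obtain ⟨B, hB⟩ := h3
  refine ⟨max B ‖g.coeff 0‖, fun y hy => ?_⟩
  have h4 := hB ‖y‖ ((le_max_left _ _).trans hy.le) y rfl
  have h5 : ‖g.coeff 0‖ < ‖y‖ := (le_max_right _ _).trans_lt hy
  have h6 : g.eval y = g.divX.eval y * y + g.coeff 0 := by
    conv_lhs => rw [← Polynomial.divX_mul_X_add g]
    simp
  have h7 : ‖g.divX.eval y * y‖ ≤ ‖g.eval y‖ + ‖g.coeff 0‖ := by
    have : g.divX.eval y * y = g.eval y - g.coeff 0 := by rw [h6]; ring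
    rw [this]; exact norm_sub_le _ _
  rw [norm_mul] at h7
  simp only [id] at h4
  nlinarith [norm_nonneg y]

theorem int_mult {K : Type} [Field K] [CharZero K] [Algebra.IsAlgebraic ℚ K] (s : Finset K) :
    ∃ M : ℕ, 0 < M ∧ ∀ z ∈ s, IsIntegral ℤ ((M : K) * z) := by
  classical
  induction s using Finset.induction_on with
  | empty => exact ⟨1, one_pos, by simp⟩
  | insert a s _ ih =>
    obtain ⟨M, hM, h⟩ := ih
    have ha : IsAlgebraic ℤ a :=
      (IsFractionRing.isAlgebraic_iff ℤ ℚ K).2 (Algebra.IsAlgebraic.isAlgebraic a)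
    obtain ⟨y, hy, hi⟩ := ha.exists_integral_multiple
    have hi' : IsIntegral ℤ ((y.natAbs : K) * a) := by
      rcases Int.natAbs_eq y with e | e
      · have : (y.natAbs : K) * a = y • a := by
          rw [zsmul_eq_mul]; congr 1; conv_rhs => rw [e]
          simp
        rw [this]; exact hi
      · have : (y.natAbs : K) * a = -(y • a) := by
          rw [zsmul_eq_mul, ← neg_mul]; congr 1; conv_rhs => rw [e]
          simp
        rw [this]; exact hi.neg
    refine ⟨y.natAbs * M, Nat.mul_pos (Int.natAbs_pos.2 hy) hM, fun z hz => ?_⟩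
    rcases Finset.mem_insert.1 hz with rfl | hz
    · have : ((y.natAbs * M : ℕ) : K) * z = (M : K) * ((y.natAbs : K) * z) := by push_cast; ring
      rw [this]; exact (isIntegral_natCast _).mul hi'
    · have : ((y.natAbs * M : ℕ) : K) * z = (y.natAbs : K) * ((M : K) * z) := by push_cast; ring
      rw [this]; exact (isIntegral_natCast _).mul (h z hz)

theorem back_finite {K : Type} [Field K] [NumberField K] (g : K[X]) (hd : 2 ≤ g.natDegree)
    (x : ℕ → K) (hx : ∀ k, g.eval (x (k + 1)) = x k) : (Set.range x).Finite := by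
  classical
  have hg0 : g ≠ 0 := by rintro rfl; simp at hd
  have hl : g.leadingCoeff ≠ 0 := leadingCoeff_ne_zero.2 hg0
  set p := g * C g.leadingCoeff⁻¹ with hp
  have hpm : p.Monic := monic_mul_leadingCoeff_inv hg0
  have hpd : p.natDegree = g.natDegree := natDegree_mul_leadingCoeff_inv g hg0
  obtain ⟨M, hM, hMi⟩ := int_mult (insert (x 0) (insert g.leadingCoeff⁻¹
    ((Finset.range g.natDegree).image p.coeff)))
  have hint : ∀ k, IsIntegral ℤ ((M : K) * x k) := by
    intro k
    induction k with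
    | zero => exact hMi _ (by simp)
    | succ k ih =>
      refine IsIntegral.of_aeval_monic_of_isIntegral_coeff (p := p.scaleRoots (M : K))
        ((monic_scaleRoots_iff _).2 hpm) (by rw [natDegree_scaleRoots]; omega) ?_ ?_
      · have := p.scaleRoots_eval₂_mul (RingHom.id K) (x (k + 1)) (M : K)
        simp only [RingHom.id_apply, eval₂_id] at this
        rw [this, hpd, hp, eval_mul, eval_C, hx]
        obtain ⟨d, hd'⟩ := Nat.exists_eq_add_of_le hd
        have e : (M : K) ^ g.natDegree * (x k * g.leadingCoeff⁻¹) =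
            (M : K) ^ d * (((M : K) * g.leadingCoeff⁻¹) * ((M : K) * x k)) := by
          rw [hd']; ring
        rw [e]
        exact ((isIntegral_natCast _).pow _).mul ((hMi _ (by simp)).mul ih)
      · intro i
        rw [coeff_scaleRoots]
        rcases lt_trichotomy i p.natDegree with h | h | h
        · obtain ⟨d, hd'⟩ := Nat.exists_eq_add_of_lt h
          have e : p.coeff i * (M : K) ^ (p.natDegree - i) = (M : K) ^ d * ((M : K) * p.coeff i) := by
            rw [show p.natDegree - i = d + 1 by omega]; ring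
          rw [e]
          refine ((isIntegral_natCast _).pow _).mul (hMi _ ?_)
          simp only [Finset.mem_insert, Finset.mem_image, Finset.mem_range]
          exact Or.inr (Or.inr ⟨i, by omega, rfl⟩)
        · rw [h, Nat.sub_self, pow_zero, mul_one, hpm.coeff_natDegree]; exact isIntegral_one
        · rw [coeff_eq_zero_of_natDegree_lt h, zero_mul]; exact isIntegral_zero
  have hb : ∀ φ : K →+* ℂ, ∃ B : ℝ, ∀ k, ‖φ (x k)‖ ≤ B := by
    intro φ
    obtain ⟨B, hB⟩ := esc_ar (g.map φ) (by rw [natDegree_map]; exact hd)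
    refine ⟨max B ‖φ (x 0)‖, fun k => ?_⟩
    induction k with
    | zero => exact le_max_right _ _
    | succ k ih =>
      by_contra hlt
      push Not at hlt
      have := hB _ ((le_max_left _ _).trans_lt hlt)
      rw [Polynomial.eval_map, Polynomial.eval₂_at_apply, hx] at this
      linarith
  choose B hB using hb
  obtain ⟨B0, hB0⟩ := (Set.finite_range B).bddAbove
  have hfin := NumberField.Embeddings.finite_of_norm_le K ℂ (M * B0)
  have hM0 : (M : K) ≠ 0 := by exact_mod_cast hM.ne'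
  refine (hfin.image (fun z => (M : K)⁻¹ * z)).subset ?_
  rintro _ ⟨k, rfl⟩
  refine ⟨(M : K) * x k, ⟨hint k, fun φ => ?_⟩, by simp [hM0]⟩
  rw [map_mul, norm_mul, map_natCast, Complex.norm_natCast]
  have := (hB φ k).trans (hB0 ⟨φ, rfl⟩)
  gcongr

end Pool.Agent.H.MP_8d2e9f_nt
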