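import Mathlib
import Pool.Agent.H.MP_8d2e9f_nt.A

namespace Pool.Agent.H.MP_8d2e9f_nt

open Polynomial Function Filter IntermediateField

theorem padic_root (q p : ℕ) [Fact q.Prime] (hp : p.Prime) (hq2 : q ≠ 2) (hqp : q ≠ p)
    (hd : ¬ p ∣ q - 1) : ∃ z : ℚ_[q], z ^ p = 2 := by
  have hq : q.Prime := Fact.out
  have h2 : (2 : ZMod q) ≠ 0 := by
    intro h
    have : q ∣ 2 := (ZMod.natCast_eq_zero_iff 2 q).1 (by exact_mod_cast h)
    exact hq2 ((Nat.prime_dvd_prime_iff_eq hq Nat.prime_two).1 this)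
  have hc : (Nat.card (ZMod q)ˣ).Coprime p := by
    rw [Nat.card_eq_fintype_card, ZMod.card_units]
    exact ((Nat.Prime.coprime_iff_not_dvd hp).2 hd).symm
  obtain ⟨u, hu⟩ := hc.pow_left_bijective.2 (Units.mk0 2 h2)
  have hu' : (u : ZMod q) ^ p = 2 := by
    have := congrArg (fun v : (ZMod q)ˣ => (v : ZMod q)) hu
    simpa using this
  let a : ℤ_[q] := ((u : ZMod q).val : ℕ)
  have ha : PadicInt.toZMod a = u := by simp [a]
  have hlt : ∀ z : ℤ_[q], ‖z‖ < 1 ↔ PadicInt.toZMod z = 0 := by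
    intro z
    rw [← RingHom.mem_ker, PadicInt.ker_toZMod, IsLocalRing.mem_maximalIdeal,
      PadicInt.mem_nonunits]
  have hF : ‖(X ^ p - C 2 : ℤ_[q][X]).aeval a‖ <
      ‖(X ^ p - C 2 : ℤ_[q][X]).derivative.aeval a‖ ^ 2 := by
    have e1 : ‖(X ^ p - C 2 : ℤ_[q][X]).derivative.aeval a‖ = 1 := by
      refine le_antisymm (PadicInt.norm_le_one _) (not_lt.1 fun h => ?_)
      rw [hlt] at h
      simp only [derivative_sub, derivative_X_pow, derivative_C, sub_zero, coe_aeval_eq_eval,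
        eval_mul, eval_C, eval_pow, eval_X, map_mul, map_pow, map_natCast, ha] at h
      rcases mul_eq_zero.1 h with h | h
      · exact hqp ((Nat.prime_dvd_prime_iff_eq hq hp).1 ((ZMod.natCast_eq_zero_iff p q).1 h))
      · exact u.ne_zero (pow_eq_zero_iff_of_pos' h)
    rw [e1, one_pow, hlt]
    simp only [coe_aeval_eq_eval, eval_sub, eval_pow, eval_X, eval_C, map_sub, map_pow, ha, hu']
    rw [map_ofNat, sub_self]
  obtain ⟨z, hz, -⟩ := hensels_lemma hF
  simp only [coe_aeval_eq_eval, eval_sub, eval_pow, eval_X, eval_C] at hz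
  refine ⟨z, ?_⟩
  have := congrArg (algebraMap ℤ_[q] ℚ_[q]) (sub_eq_zero.1 hz)
  rw [map_pow, map_ofNat] at this
  exact this
where
  pow_eq_zero_iff_of_pos' {F : Type} [Field F] {a : F} {n : ℕ} (h : a ^ n = 0) : a = 0 :=
    pow_eq_zero_iff.{0} (n := n) (by rintro rfl; simp at h) |>.1 h

section tower
variable {E : Type} [Field E] [CharZero E] (ρ : E →+* ℝ)

include ρ in
theorem minpoly_eq (L : IntermediateField ℚ E) {p : ℕ} (hp : p.Prime) (ho : Odd p) {a : E}
    (ha : a ^ p = 2) (haL : a ∉ L) : minpoly L a = X ^ p - C 2 := by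
  symm
  apply minpoly.eq_of_irreducible_of_monic
  · apply X_pow_sub_C_irreducible_of_prime hp
    intro b hb
    apply haL
    have h1 : (b : E) ^ p = 2 := by
      have := congrArg (algebraMap L E) hb
      rw [map_pow, map_ofNat] at this
      exact this
    have h2 : ρ b = ρ a := by
      apply ho.pow_injective
      simp only [← map_pow, h1, ha]
    rw [← ρ.injective h2]; exact b.2
  · simp only [map_sub, map_pow, aeval_X, aeval_C, ha]
    rw [map_ofNat, sub_self]
  · exact monic_X_pow_sub_C _ hp.ne_zero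

theorem isInt (L : IntermediateField ℚ E) {p : ℕ} (hp : p.Prime) {a : E} (ha : a ^ p = 2) :
    IsIntegral L a :=
  ⟨X ^ p - C 2, monic_X_pow_sub_C _ hp.ne_zero, by
    simp only [eval₂_sub, eval₂_X_pow, eval₂_C, ha]
    rw [map_ofNat, sub_self]⟩

include ρ in
theorem step (L : IntermediateField ℚ E) {p : ℕ} (hp : p.Prime) (ho : Odd p) {a : E}
    (ha : a ^ p = 2) {x : E} (hx : x ∈ L⟮a⟯) (g : E[X]) (hg0 : g ≠ 0) (hgd : g.natDegree < p)
    (hgc : ∀ i, g.coeff i ∈ L) (hgx : g.eval x = 0) : x ∈ L := by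
  by_cases haL : a ∈ L
  · have : L⟮a⟯ ≤ ⊥ := adjoin_simple_le_iff.2 ⟨⟨a, haL⟩, rfl⟩
    obtain ⟨y, hy⟩ := this hx
    rw [← hy]; exact y.2
  have h1 : Module.finrank L L⟮a⟯ = p := by
    rw [adjoin.finrank (isInt L hp ha), minpoly_eq ρ L hp ho ha haL, natDegree_X_pow_sub_C]
  obtain ⟨g', hg', hd'⟩ := exists_natDegree_eq_of_mem_lifts (f := algebraMap L E) (p := g)
    ((lifts_iff_coeff_lifts _).2 fun i => ⟨⟨_, hgc i⟩, rfl⟩)
  have hg'0 : g' ≠ 0 := by rintro rfl; exact hg0 (by rw [← hg', Polynomial.map_zero])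
  have hax : aeval x g' = 0 := by rw [← eval_map_algebraMap, hg', hgx]
  have hxi : IsIntegral L x := (IsAlgebraic.isIntegral ⟨g', hg'0, hax⟩)
  have h2 : Module.finrank L L⟮x⟯ ∣ p := by
    rw [← h1]; exact finrank_dvd_of_le_right (adjoin_simple_le_iff.2 hx)
  have h3 : Module.finrank L L⟮x⟯ < p := by
    rw [adjoin.finrank hxi]
    exact (natDegree_le_of_dvd (minpoly.dvd L x hax) hg'0).trans_lt (hd' ▸ hgd)
  have h4 : Module.finrank L L⟮x⟯ = 1 := by
    rcases (Nat.dvd_prime hp).1 h2 with h | h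
    · exact h
    · omega
  obtain ⟨y, hy⟩ := finrank_adjoin_simple_eq_one_iff.1 h4
  rw [← hy]; exact y.2

variable (p : ℕ → ℕ) (a : ℕ → E) (hp : ∀ k, (p k).Prime) (ho : ∀ k, Odd (p k))
  (ha : ∀ k, a k ^ p k = 2) (htop : adjoin ℚ (Set.range a) = ⊤)

include ρ hp ho ha htop in
theorem exists_emb {K : Type} [Field K] [CharZero K] (hK : ∀ k, ∃ z : K, z ^ p k = 2) :
    Nonempty (E →+* K) := by
  obtain ⟨φ, -, hφ⟩ := zorn_le_nonempty_Ici₀ (⊥ : Lifts ℚ E K)
    (fun c _ hc _ _ => Lifts.exists_upper_bound c hc) ⊥ le_rfl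
  have hall : ∀ k, a k ∈ φ.carrier := by
    intro k
    by_contra hk
    obtain ⟨z, hz⟩ := hK k
    have h1 := isInt φ.carrier (hp k) (ha k)
    let : Algebra φ.carrier K := φ.emb.toRingHom.toAlgebra
    let ψ : φ.carrier⟮a k⟯ →ₐ[φ.carrier] K := (algHomAdjoinIntegralEquiv φ.carrier h1).symm
      ⟨z, by
        rw [mem_aroots, and_iff_right (minpoly.ne_zero h1),
          minpoly_eq ρ φ.carrier (hp k) (ho k) (ha k) hk]
        simp only [map_sub, map_pow, aeval_X, aeval_C, hz]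
        rw [map_ofNat, sub_self]⟩
    let y : Lifts ℚ E K := ⟨φ.carrier⟮a k⟯.restrictScalars ℚ, ψ.toRingHom.toRatAlgHom⟩
    have hle : φ ≤ y := ⟨fun w hw => IntermediateField.algebraMap_mem φ.carrier⟮a k⟯ ⟨w, hw⟩,
      fun w => ψ.commutes w⟩
    exact hk ((hφ hle).1 (mem_adjoin_simple_self φ.carrier (a k)))
  have : φ.carrier = ⊤ := by
    rw [eq_top_iff, ← htop, adjoin_le_iff]
    rintro _ ⟨k, rfl⟩; exact hall k
  exact ⟨(φ.emb.comp ((equivOfEq this).trans topEquiv).symm.toAlgHom).toRingHom⟩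

def Lv (n : ℕ) : IntermediateField ℚ E := adjoin ℚ (a '' Set.Iio n)

theorem Lv_mono {m n : ℕ} (h : m ≤ n) : Lv a m ≤ Lv a n :=
  adjoin.mono _ _ _ (Set.image_mono (Set.Iio_subset_Iio h))

include htop in
theorem mem_Lv (x : E) : ∃ n, x ∈ Lv a n := by
  have hx : x ∈ adjoin ℚ (Set.range a) := by rw [htop]; trivial
  induction hx using adjoin_induction with
  | mem y hy =>
    obtain ⟨k, rfl⟩ := hy
    exact ⟨k + 1, subset_adjoin _ _ ⟨k, by simp, rfl⟩⟩
  | algebraMap r => exact ⟨0, IntermediateField.algebraMap_mem _ r⟩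
  | add y z _ _ h1 h2 =>
    obtain ⟨m, h1⟩ := h1
    obtain ⟨n, h2⟩ := h2
    exact ⟨max m n, add_mem (Lv_mono a (le_max_left _ _) h1) (Lv_mono a (le_max_right _ _) h2)⟩
  | inv y _ h1 => exact h1.imp fun n h => inv_mem h
  | mul y z _ _ h1 h2 =>
    obtain ⟨m, h1⟩ := h1
    obtain ⟨n, h2⟩ := h2
    exact ⟨max m n, mul_mem (Lv_mono a (le_max_left _ _) h1) (Lv_mono a (le_max_right _ _) h2)⟩

theorem Lv_succ (n : ℕ) {x : E} (hx : x ∈ Lv a (n + 1)) : x ∈ (Lv a n)⟮a n⟯ := by
  have : Lv a (n + 1) = ((Lv a n)⟮a n⟯).restrictScalars ℚ := by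
    unfold Lv
    refine Eq.trans ?_ (adjoin_adjoin_left ℚ (a '' Set.Iio n) {a n}).symm
    congr 1
    ext y
    simp only [Set.mem_image, Set.mem_Iio, Set.mem_union, Set.mem_singleton_iff]
    constructor
    · rintro ⟨k, hk, rfl⟩
      rcases Nat.lt_succ_iff_lt_or_eq.1 hk with h | rfl
      · exact Or.inl ⟨k, h, rfl⟩
      · exact Or.inr rfl
    · rintro (⟨k, hk, rfl⟩ | rfl)
      · exact ⟨k, by omega, rfl⟩
      · exact ⟨n, by omega, rfl⟩
  rw [this] at hx
  exact hx

include hp ha in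
theorem a_int (k : ℕ) : IsIntegral ℚ (a k) :=
  ⟨X ^ p k - C 2, monic_X_pow_sub_C _ (hp k).ne_zero, by
    simp only [eval₂_sub, eval₂_X_pow, eval₂_C, ha]
    rw [map_ofNat, sub_self]⟩

include ρ hp ho ha htop in
theorem periodic (hmono : StrictMono p) (f : E[X]) (hd : 2 ≤ f.natDegree) (x : ℕ → E)
    (hx : ∀ k, f.eval (x (k + 1)) = x k) : ∃ n, 0 < n ∧ IsPeriodicPt (fun y => f.eval y) n (x 0) := by
  choose lv hlv using mem_Lv a htop
  let N := max (f.natDegree + 1) (max (lv (x 0))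
    ((Finset.range (f.natDegree + 1)).sup fun i => lv (f.coeff i)))
  have hc : ∀ i, f.coeff i ∈ Lv a N := by
    intro i
    by_cases hi : i ≤ f.natDegree
    · refine Lv_mono a ?_ (hlv _)
      refine le_trans ?_ ((le_max_right _ _).trans (le_max_right _ _))
      exact Finset.le_sup (f := fun i => lv (f.coeff i)) (Finset.mem_range.2 (by omega))
    · rw [coeff_eq_zero_of_natDegree_lt (by omega)]; exact zero_mem _
  have hxN : ∀ k, x k ∈ Lv a N := by
    intro k
    induction k with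
    | zero => exact Lv_mono a ((le_max_left _ _).trans (le_max_right _ _)) (hlv _)
    | succ k ih =>
      have hdeg : (f - C (x k)).natDegree = f.natDegree := natDegree_sub_C
      have key : ∀ m, x (k + 1) ∈ Lv a (N + m) → x (k + 1) ∈ Lv a N := by
        intro m
        induction m with
        | zero => exact id
        | succ m ihm =>
          intro h
          apply ihm
          refine step ρ (Lv a (N + m)) (hp (N + m)) (ho _) (ha _) (Lv_succ a _ h) (f - C (x k))
            ?_ ?_ ?_ (by simp [hx])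
          · intro h0; rw [h0] at hdeg; simp at hdeg; omega
          · have h1 := hmono.le_apply (x := N + m)
            have h2 : f.natDegree + 1 ≤ N := le_max_left _ _
            omega
          · intro i
            refine Lv_mono a (Nat.le_add_right N m) ?_
            rw [coeff_sub, coeff_C]
            refine sub_mem (hc i) ?_
            split_ifs
            · exact ih
            · exact zero_mem _
      exact key (lv (x (k + 1))) (Lv_mono a (Nat.le_add_left _ _) (hlv _))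
  have : Finite (a '' Set.Iio N) := ((Set.finite_Iio N).image a).to_subtype
  have : FiniteDimensional ℚ (Lv a N) := finiteDimensional_adjoin (by
    rintro _ ⟨k, _, rfl⟩; exact a_int p a hp ha k)
  have : NumberField (Lv a N) := {}
  obtain ⟨g, hg, hgd⟩ := exists_natDegree_eq_of_mem_lifts (f := algebraMap (Lv a N) E) (p := f)
    ((lifts_iff_coeff_lifts _).2 fun i => ⟨⟨_, hc i⟩, rfl⟩)
  have hfin := back_finite g (hgd ▸ hd) (fun k => ⟨x k, hxN k⟩) (fun k => by
    apply (algebraMap (Lv a N) E).injective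
    rw [← Polynomial.eval₂_at_apply, ← Polynomial.eval_map, hg]
    exact hx k)
  obtain ⟨j, k, hjk, he⟩ := hfin.exists_lt_map_eq_of_forall_mem
    (f := fun k => (⟨x k, hxN k⟩ : Lv a N)) (fun k => Set.mem_range_self k)
  have he' : x j = x k := congrArg Subtype.val he
  have hit : ∀ m i, (fun y => f.eval y)^[m] (x (i + m)) = x i := by
    intro m
    induction m with
    | zero => intro i; rfl
    | succ m ih => intro i; rw [iterate_succ_apply, ← add_assoc]; simp only [hx]; exact ih i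
  have h1 : IsPeriodicPt (fun y => f.eval y) (k - j) (x j) := by
    have := hit (k - j) j
    rwa [show j + (k - j) = k by omega, ← he'] at this
  have h2 := h1.apply_iterate j
  have h3 := hit j 0
  rw [zero_add] at h3
  rw [h3] at h2
  exact ⟨k - j, by omega, h2⟩

end tower

theorem norm_le_of_int {q : ℕ} [Fact q.Prime] {z : ℚ_[q]} (hz : IsIntegral ℤ z) : ‖z‖ ≤ 1 := by
  have h1 : IsIntegral ℤ_[q] z := hz.tower_top
  obtain ⟨y, rfl⟩ := (IsIntegrallyClosed.isIntegral_iff (R := ℤ_[q]) (K := ℚ_[q])).1 h1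
  exact y.2

theorem period_good {E : Type} [Field E] [CharZero E] [Algebra.IsAlgebraic ℚ E] (f : E[X])
    (hd : 2 ≤ f.natDegree) : ∃ M : ℕ, ∀ (q : ℕ) [Fact q.Prime], M < q → (E →+* ℚ_[q]) →
      ∀ x n, 0 < n → IsPeriodicPt (fun y => f.eval y) n x →
        ∃ e, IsPeriodicPt (fun y => f.eval y) ((q.factorial * (q - 1)) * q ^ e) x := by
  classical
  obtain ⟨M, hM, hMi⟩ := int_mult (insert (f.coeff f.natDegree)⁻¹
    ((Finset.range (f.natDegree + 1)).image f.coeff))
  refine ⟨M, fun q _ hq σ x n hn hx => ?_⟩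
  have hMq : ‖(M : ℚ_[q])‖ = 1 := Padic.norm_natCast_eq_one_iff.2
    ((Nat.Prime.coprime_iff_not_dvd Fact.out).2 (Nat.not_dvd_of_pos_of_lt hM hq))
  have hn1 : ∀ z : E, IsIntegral ℤ ((M : E) * z) → ‖σ z‖ ≤ 1 := by
    intro z hz
    have := norm_le_of_int (hz.map σ.toIntAlgHom)
    simpa [hMq] using this
  have hc : ∀ i, ‖(f.map σ).coeff i‖ ≤ 1 := by
    intro i
    rw [coeff_map]
    by_cases hi : i ≤ f.natDegree
    · refine hn1 _ (hMi _ ?_)
      simp only [Finset.mem_insert, Finset.mem_image, Finset.mem_range]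
      exact Or.inr ⟨i, by omega, rfl⟩
    · rw [coeff_eq_zero_of_natDegree_lt (by omega)]; simp
  have hdeg : (f.map σ).natDegree = f.natDegree := natDegree_map σ
  have hl : ‖(f.map σ).coeff (f.map σ).natDegree‖ = 1 := by
    refine le_antisymm (hc _) ?_
    have h1 := hn1 _ (hMi (f.coeff f.natDegree)⁻¹ (by simp))
    have h0 : f.coeff f.natDegree ≠ 0 := by
      rw [coeff_natDegree, leadingCoeff_ne_zero]; rintro rfl; simp at hd
    rw [map_inv₀, norm_inv] at h1
    rw [hdeg, coeff_map]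
    have h2 : 0 < ‖σ (f.coeff f.natDegree)‖ := norm_pos_iff.2 ((map_ne_zero σ).2 h0)
    exact (inv_le_one₀ h2).1 h1
  have hsc : Semiconj σ (fun y => f.eval y) (fun z => (f.map σ).eval z) := by
    intro y
    simp only [Polynomial.eval_map, Polynomial.eval₂_at_apply]
  have hx' : IsPeriodicPt (fun z => (f.map σ).eval z) n (σ x) := hx.map hsc
  have hx1 : ‖σ x‖ ≤ 1 := by
    by_contra hlt
    push Not at hlt
    have : ∀ k, ‖σ x‖ < ‖(fun z => (f.map σ).eval z)^[k + 1] (σ x)‖ := by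
      intro k
      induction k with
      | zero => exact esc_na _ (hdeg ▸ hd) hc hl _ hlt
      | succ k ih =>
        rw [iterate_succ_apply']
        exact ih.trans (esc_na _ (hdeg ▸ hd) hc hl _ (hlt.trans ih))
    obtain ⟨m, rfl⟩ := Nat.exists_eq_succ_of_ne_zero hn.ne'
    have h := this m
    rw [show (fun z => (f.map σ).eval z)^[m + 1] (σ x) = σ x from hx'] at h
    exact lt_irrefl _ h
  obtain ⟨g, hg⟩ := (lifts_iff_coeff_lifts (f := algebraMap ℤ_[q] ℚ_[q]) (f.map σ)).2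
    fun i => ⟨⟨_, hc i⟩, rfl⟩
  have hg' : g.map (algebraMap ℤ_[q] ℚ_[q]) = f.map σ := hg
  have hsc2 : Semiconj (algebraMap ℤ_[q] ℚ_[q]) (fun y => g.eval y)
      (fun z => (f.map σ).eval z) := by
    intro y
    simp only [← hg', Polynomial.eval_map, Polynomial.eval₂_at_apply]
  have hinj : Injective (algebraMap ℤ_[q] ℚ_[q]) := Subtype.val_injective
  have hx2 : IsPeriodicPt (fun y => g.eval y) n (⟨σ x, hx1⟩ : ℤ_[q]) := by
    apply hinj
    exact ((hsc2.iterate_right n) _).trans hx'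
  obtain ⟨e, he⟩ := period_bound PadicInt.toZMod g hn hx2
  refine ⟨e, σ.injective ?_⟩
  rw [(hsc.iterate_right _) _]
  exact he.map hsc2

end Pool.Agent.H.MP_8d2e9f_nt
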